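import Mathlib

/-!
Digit covering: sums of four sets of residues plus a few digits.
-/

open Finset

namespace Pool.Agent.H91.DG

/-- The part of `B` over the residue `y` modulo `m`. -/
def fib (m : ℕ) (B : Finset ℕ) (y : ℕ) : Finset ℕ := B.filter (fun b => b % m = y)

/-- The residues modulo `m` over which `B` has at least `s` elements. -/
def lev (m : ℕ) (B : Finset ℕ) (s : ℕ) : Finset ℕ :=
  (range m).filter (fun y => s ≤ (fib m B y).card)

/-- `B0 + B1 + B2 + B3` plus the digits in `I` is everything modulo `w n`. -/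
def Cov (w : ℕ → ℕ) (n : ℕ) (B0 B1 B2 B3 : Finset ℕ) (I : Finset ℕ) : Prop :=
  ∀ x : ℤ, ∃ b0 ∈ B0, ∃ b1 ∈ B1, ∃ b2 ∈ B2, ∃ b3 ∈ B3, ∃ t : ℕ → ℕ,
    (∀ i ∈ I, t i * w i < w (i + 1)) ∧
    x ≡ (b0 : ℤ) + b1 + b2 + b3 + ∑ i ∈ I, (t i : ℤ) * w i [ZMOD (w n : ℤ)]

lemma mem_fib {m : ℕ} {B : Finset ℕ} {y b : ℕ} : b ∈ fib m B y ↔ b ∈ B ∧ b % m = y := by
  unfold fib; rw [mem_filter]

lemma mem_lev {m : ℕ} {B : Finset ℕ} {s y : ℕ} :
    y ∈ lev m B s ↔ y < m ∧ s ≤ (fib m B y).card := by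
  unfold lev; rw [mem_filter, mem_range]

/-- A residue class modulo `m` has at most `q` elements below `m * q`. -/
lemma card_class {m q : ℕ} (y : ℕ) (C : Finset ℕ) (hC : ∀ c ∈ C, c < m * q ∧ c % m = y) :
    C.card ≤ q := by
  have h : C.card ≤ (range q).card := by
    refine card_le_card_of_injOn (fun c => c / m) ?_ ?_
    · intro c hc
      have h1 := (hC c hc).1
      simp only [coe_range, Set.mem_Iio]
      exact Nat.div_lt_of_lt_mul h1
    · intro a ha b hb hab
      simp only at hab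
      have h1 := Nat.div_add_mod a m
      have h2 := Nat.div_add_mod b m
      rw [(hC a ha).2] at h1
      rw [(hC b hb).2] at h2
      rw [← h1, ← h2, hab]
  rwa [card_range] at h

lemma card_fib_le {m q : ℕ} {B : Finset ℕ} (hB : B ⊆ range (m * q)) (y : ℕ) :
    (fib m B y).card ≤ q := by
  refine card_class (m := m) y _ fun c hc => ?_
  rw [mem_fib] at hc
  exact ⟨mem_range.mp (hB hc.1), hc.2⟩

lemma card_eq_sum_fib {m : ℕ} (hm : 0 < m) (B : Finset ℕ) :
    B.card = ∑ y ∈ range m, (fib m B y).card := by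
  unfold fib
  exact card_eq_sum_card_fiberwise fun b _ => by
    simp only [coe_range, Set.mem_Iio]; exact Nat.mod_lt _ hm

lemma card_eq_sum_lev {m q : ℕ} (hm : 0 < m) {B : Finset ℕ} (hB : B ⊆ range (m * q)) :
    B.card = ∑ s ∈ Icc 1 q, (lev m B s).card := by
  rw [card_eq_sum_fib hm B]
  have h1 : ∀ s, (lev m B s).card = ∑ y ∈ range m, if s ≤ (fib m B y).card then 1 else 0 := by
    intro s
    unfold lev
    rw [card_filter]
  simp_rw [h1]
  rw [sum_comm]
  refine sum_congr rfl fun y _ => ?_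
  rw [← card_filter]
  have h2 : (Icc 1 q).filter (fun s => s ≤ (fib m B y).card) = Icc 1 (fib m B y).card := by
    ext s
    simp only [mem_filter, mem_Icc]
    have := card_fib_le hB y
    omega
  rw [h2, Nat.card_Icc]
  omega

/-- Two large parts of two classes modulo `m` give a full class. -/
lemma pigeon {m q : ℕ} (hm : 0 < m) (hq : 0 < q) {F F' : Finset ℕ} {y y' : ℕ}
    (hF : ∀ b ∈ F, b < m * q ∧ b % m = y) (hF' : ∀ b ∈ F', b < m * q ∧ b % m = y')
    (hc : q < F.card + F'.card) (r : ℤ) (hr : r ≡ (y : ℤ) + y' [ZMOD (m : ℤ)]) :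
    ∃ b ∈ F, ∃ b' ∈ F', r ≡ (b : ℤ) + b' [ZMOD ((m * q : ℕ) : ℤ)] := by
  classical
  have hM : (0 : ℤ) < ((m * q : ℕ) : ℤ) := by exact_mod_cast Nat.mul_pos hm hq
  set f : ℕ → ℕ := fun b => ((r - b) % ((m * q : ℕ) : ℤ)).toNat with hf
  have hfv : ∀ b, ((f b : ℕ) : ℤ) = (r - b) % ((m * q : ℕ) : ℤ) := by
    intro b
    rw [hf]
    exact Int.toNat_of_nonneg (Int.emod_nonneg _ hM.ne')
  have hflt : ∀ b, f b < m * q := by
    intro b
    have h1 := Int.emod_lt_of_pos (r - b) hM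
    rw [← hfv b] at h1
    exact_mod_cast h1
  -- the image is in the class of `y'`
  have hcls : ∀ c ∈ F.image f ∪ F', c < m * q ∧ c % m = y' % m := by
    intro c hc'
    rw [mem_union, mem_image] at hc'
    rcases hc' with ⟨b, hb, rfl⟩ | hc'
    · refine ⟨hflt b, ?_⟩
      have h1 : ((f b : ℕ) : ℤ) ≡ y' [ZMOD (m : ℤ)] := by
        rw [hfv b]
        have h2 : (r - b) % ((m * q : ℕ) : ℤ) ≡ r - b [ZMOD (m : ℤ)] := by
          have h3 : (r - b) % ((m * q : ℕ) : ℤ) ≡ r - b [ZMOD ((m * q : ℕ) : ℤ)] :=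
            Int.mod_modEq _ _
          exact h3.of_mul_right q |> fun h => by simpa using h
        refine h2.trans ?_
        have h4 : (b : ℤ) ≡ y [ZMOD (m : ℤ)] := by
          have h5 := (hF b hb).2
          have h6 : b ≡ y [MOD m] := by
            unfold Nat.ModEq
            rw [h5]
            have : y < m := by rw [← h5]; exact Nat.mod_lt _ hm
            rw [Nat.mod_eq_of_lt this]
          exact (Int.natCast_modEq_iff).mpr h6
        have h7 := hr.sub h4
        have h8 : (y : ℤ) + y' - y = y' := by ring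
        rwa [h8] at h7
      exact (Int.natCast_modEq_iff).mp h1
    · refine ⟨(hF' c hc').1, ?_⟩
      have h5 := (hF' c hc').2
      have : y' < m := by rw [← h5]; exact Nat.mod_lt _ hm
      rw [h5, Nat.mod_eq_of_lt this]
  have hcard := card_class (m := m) (q := q) (y' % m) _ hcls
  have hinj : (F.image f).card = F.card := by
    refine card_image_of_injOn ?_
    intro a ha b hb hab
    have h1 : (r - a) % ((m * q : ℕ) : ℤ) = (r - b) % ((m * q : ℕ) : ℤ) := by
      rw [← hfv a, ← hfv b, hab]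
    have h2 : r - a ≡ r - b [ZMOD ((m * q : ℕ) : ℤ)] := h1
    have h3 : (a : ℤ) ≡ b [ZMOD ((m * q : ℕ) : ℤ)] := by
      have h4 := (Int.ModEq.refl (n := ((m * q : ℕ) : ℤ)) r).sub h2
      simpa using h4
    have h5 : a ≡ b [MOD m * q] := (Int.natCast_modEq_iff).mp h3
    exact Nat.ModEq.eq_of_lt_of_lt h5 (hF a ha).1 (hF b hb).1
  have hmeet : (F.image f ∩ F').Nonempty := by
    rw [← card_pos]
    have h1 := card_union_add_card_inter (F.image f) F'
    omega
  obtain ⟨c, hc1⟩ := hmeet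
  rw [mem_inter, mem_image] at hc1
  obtain ⟨⟨b, hb, hbc⟩, hcF⟩ := hc1
  refine ⟨b, hb, c, hcF, ?_⟩
  have h1 : ((c : ℕ) : ℤ) ≡ r - b [ZMOD ((m * q : ℕ) : ℤ)] := by
    rw [← hbc, hfv b]
    exact Int.mod_modEq _ _
  have h2 := (Int.ModEq.refl (n := ((m * q : ℕ) : ℤ)) (b : ℤ)).add h1
  have h3 : (b : ℤ) + (r - b) = r := by ring
  rw [h3] at h2
  exact h2.symm

lemma fib_mod {m : ℕ} {B : Finset ℕ} {y b : ℕ} (hy : y < m) (h : b ∈ fib m B y) :
    (b : ℤ) ≡ y [ZMOD (m : ℤ)] := by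
  have h6 : b ≡ y [MOD m] := by
    unfold Nat.ModEq
    rw [(mem_fib.mp h).2, Nat.mod_eq_of_lt hy]
  exact (Int.natCast_modEq_iff).mpr h6

/-- The digit `n` is free. -/
lemma optA {w : ℕ → ℕ} {n q s : ℕ} {B0 B1 B2 B3 I : Finset ℕ} (hw : w (n + 1) = w n * q)
    (hwn : 0 < w n) (hq : 0 < q) (hs : s ∈ Icc 1 q)
    (hB0 : B0 ⊆ range (w (n + 1))) (hB1 : B1 ⊆ range (w (n + 1)))
    (h : Cov w n (lev (w n) B0 s) (lev (w n) B1 (q + 1 - s)) (lev (w n) B2 1) (lev (w n) B3 1) I) :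
    Cov w (n + 1) B0 B1 B2 B3 I := by
  intro x
  obtain ⟨y0, hy0, y1, hy1, y2, hy2, y3, hy3, t, ht, hx⟩ := h x
  rw [mem_lev] at hy0 hy1 hy2 hy3
  rw [mem_Icc] at hs
  obtain ⟨b2, hb2⟩ : (fib (w n) B2 y2).Nonempty := by rw [← card_pos]; omega
  obtain ⟨b3, hb3⟩ : (fib (w n) B3 y3).Nonempty := by rw [← card_pos]; omega
  have hm2 := fib_mod hy2.1 hb2
  have hm3 := fib_mod hy3.1 hb3
  obtain ⟨b0, hb0, b1, hb1, hr⟩ := pigeon (m := w n) (q := q) hwn hq (F := fib (w n) B0 y0)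
    (F' := fib (w n) B1 y1) (y := y0) (y' := y1)
    (fun b hb => by
      rw [mem_fib] at hb
      exact ⟨by rw [← hw]; exact mem_range.mp (hB0 hb.1), hb.2⟩)
    (fun b hb => by
      rw [mem_fib] at hb
      exact ⟨by rw [← hw]; exact mem_range.mp (hB1 hb.1), hb.2⟩)
    (by omega) (x - b2 - b3 - ∑ i ∈ I, (t i : ℤ) * w i) (by
      have h1 := ((hx.sub hm2).sub hm3).sub
        (Int.ModEq.refl (n := (w n : ℤ)) (∑ i ∈ I, (t i : ℤ) * w i))
      refine h1.trans ?_
      have h2 : (y0 : ℤ) + y1 + y2 + y3 + ∑ i ∈ I, (t i : ℤ) * w i - y2 - y3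
        - ∑ i ∈ I, (t i : ℤ) * w i = y0 + y1 := by ring
      rw [h2])
  refine ⟨b0, (mem_fib.mp hb0).1, b1, (mem_fib.mp hb1).1, b2, (mem_fib.mp hb2).1, b3,
    (mem_fib.mp hb3).1, t, ht, ?_⟩
  rw [hw]
  have h1 := hr.add (Int.ModEq.refl (n := ((w n * q : ℕ) : ℤ))
    ((b2 : ℤ) + b3 + ∑ i ∈ I, (t i : ℤ) * w i))
  have h2 : x - b2 - b3 - ∑ i ∈ I, (t i : ℤ) * w i + (b2 + b3 + ∑ i ∈ I, (t i : ℤ) * w i)
    = x := by ring
  have h3 : (b0 : ℤ) + b1 + (b2 + b3 + ∑ i ∈ I, (t i : ℤ) * w i)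
    = b0 + b1 + b2 + b3 + ∑ i ∈ I, (t i : ℤ) * w i := by ring
  rw [h2, h3] at h1
  exact h1

/-- The digit `n` is used. -/
lemma optB {w : ℕ → ℕ} {n q : ℕ} {B0 B1 B2 B3 I : Finset ℕ} (hw : w (n + 1) = w n * q)
    (hwn : 0 < w n) (hq : 0 < q) (hI : I ⊆ range n)
    (h : Cov w n (lev (w n) B0 1) (lev (w n) B1 1) (lev (w n) B2 1) (lev (w n) B3 1) I) :
    Cov w (n + 1) B0 B1 B2 B3 (insert n I) := by
  intro x
  have hnI : n ∉ I := fun h' => by
    have := mem_range.mp (hI h')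
    omega
  obtain ⟨y0, hy0, y1, hy1, y2, hy2, y3, hy3, t, ht, hx⟩ := h x
  rw [mem_lev] at hy0 hy1 hy2 hy3
  obtain ⟨b0, hb0⟩ : (fib (w n) B0 y0).Nonempty := by rw [← card_pos]; omega
  obtain ⟨b1, hb1⟩ : (fib (w n) B1 y1).Nonempty := by rw [← card_pos]; omega
  obtain ⟨b2, hb2⟩ : (fib (w n) B2 y2).Nonempty := by rw [← card_pos]; omega
  obtain ⟨b3, hb3⟩ : (fib (w n) B3 y3).Nonempty := by rw [← card_pos]; omega
  have hm0 := fib_mod hy0.1 hb0
  have hm1 := fib_mod hy1.1 hb1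
  have hm2 := fib_mod hy2.1 hb2
  have hm3 := fib_mod hy3.1 hb3
  set Sg : ℤ := ∑ i ∈ I, (t i : ℤ) * w i with hSg
  have h1 : x ≡ (b0 : ℤ) + b1 + b2 + b3 + Sg [ZMOD (w n : ℤ)] :=
    hx.trans (((((hm0.add hm1).add hm2).add hm3).add (Int.ModEq.refl _)).symm)
  obtain ⟨z, hz⟩ : ((w n : ℕ) : ℤ) ∣ x - ((b0 : ℤ) + b1 + b2 + b3 + Sg) := by
    exact (Int.modEq_iff_dvd.mp h1.symm)
  have hq' : (0 : ℤ) < (q : ℤ) := by exact_mod_cast hq
  set d : ℕ := (z % (q : ℤ)).toNat with hd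
  have hdv : (d : ℤ) = z % (q : ℤ) := Int.toNat_of_nonneg (Int.emod_nonneg _ hq'.ne')
  have hdlt : d < q := by
    have := Int.emod_lt_of_pos z hq'
    rw [← hdv] at this
    exact_mod_cast this
  refine ⟨b0, (mem_fib.mp hb0).1, b1, (mem_fib.mp hb1).1, b2, (mem_fib.mp hb2).1, b3,
    (mem_fib.mp hb3).1, Function.update t n d, ?_, ?_⟩
  · intro i hi
    rw [mem_insert] at hi
    rcases hi with rfl | hi
    · rw [Function.update_self, hw, mul_comm]
      exact Nat.mul_lt_mul_of_pos_left hdlt hwn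
    · rw [Function.update_of_ne (show i ≠ n from fun h' => hnI (h' ▸ hi))]
      exact ht i hi
  · rw [sum_insert hnI, Function.update_self]
    have e1 : ∑ i ∈ I, ((Function.update t n d i : ℕ) : ℤ) * w i = Sg := by
      rw [hSg]
      refine sum_congr rfl fun i hi => ?_
      rw [Function.update_of_ne (show i ≠ n from fun h' => hnI (h' ▸ hi))]
    rw [e1, hw]
    apply Int.ModEq.symm
    rw [Int.modEq_iff_dvd]
    refine ⟨z / q, ?_⟩
    have h2 := Int.emod_add_mul_ediv z (q : ℤ)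
    push_cast
    have h3 : x = (w n : ℤ) * z + ((b0 : ℤ) + b1 + b2 + b3 + Sg) := by linarith
    rw [h3, hdv]
    have h4 : (w n : ℤ) * z = (w n : ℤ) * (z % q + q * (z / q)) := by rw [h2]
    rw [h4]
    ring

lemma cov_symm {w : ℕ → ℕ} {n : ℕ} {B0 B1 B2 B3 I : Finset ℕ}
    (h : Cov w n B2 B3 B0 B1 I) : Cov w n B0 B1 B2 B3 I := by
  intro x
  obtain ⟨b2, h2, b3, h3, b0, h0, b1, h1, t, ht, hx⟩ := h x
  refine ⟨b0, h0, b1, h1, b2, h2, b3, h3, t, ht, ?_⟩
  have e : (b2 : ℤ) + b3 + b0 + b1 + ∑ i ∈ I, (t i : ℤ) * w i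
    = b0 + b1 + b2 + b3 + ∑ i ∈ I, (t i : ℤ) * w i := by ring
  rwa [e] at hx

lemma lev_mono {m s s' : ℕ} {B : Finset ℕ} (h : s ≤ s') : lev m B s' ⊆ lev m B s := by
  intro y hy
  rw [mem_lev] at hy ⊢
  exact ⟨hy.1, h.trans hy.2⟩

lemma lev_subset {m s : ℕ} {B : Finset ℕ} : lev m B s ⊆ range m := by
  intro y hy
  rw [mem_lev] at hy
  exact mem_range.mpr hy.1

lemma lev_one_nonempty {m : ℕ} (hm : 0 < m) {B : Finset ℕ} (h : B.Nonempty) :
    (lev m B 1).Nonempty := by
  obtain ⟨b, hb⟩ := h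
  refine ⟨b % m, ?_⟩
  rw [mem_lev]
  refine ⟨Nat.mod_lt _ hm, ?_⟩
  have : 0 < (fib m B (b % m)).card := by
    rw [card_pos]
    exact ⟨b, mem_fib.mpr ⟨hb, rfl⟩⟩
  omega

/-- The inequality for one pair. -/
lemma pair_ineq {m q : ℕ} (hm : 0 < m) (hq : 0 < q) {B0 B1 : Finset ℕ} (h0 : B0.Nonempty)
    (h1 : B1.Nonempty) (hB0 : B0 ⊆ range (m * q)) (hB1 : B1 ⊆ range (m * q)) {P : ℝ}
    (h : ∀ s ∈ Icc 1 q, ((lev m B0 s).card : ℝ) * (lev m B1 (q + 1 - s)).card <
      P * ((lev m B0 1).card * (lev m B1 1).card)) :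
    (B0.card : ℝ) / (q * (lev m B0 1).card) + (B1.card : ℝ) / (q * (lev m B1 1).card) < 1 + P := by
  have hS0 : (0 : ℝ) < (lev m B0 1).card := by
    exact_mod_cast card_pos.mpr (lev_one_nonempty hm h0)
  have hS1 : (0 : ℝ) < (lev m B1 1).card := by
    exact_mod_cast card_pos.mpr (lev_one_nonempty hm h1)
  have hq' : (0 : ℝ) < q := by exact_mod_cast hq
  have hc0 : (B0.card : ℝ) = ∑ s ∈ Icc 1 q, ((lev m B0 s).card : ℝ) := by
    exact_mod_cast card_eq_sum_lev hm hB0
  have hc1 : (B1.card : ℝ) = ∑ s ∈ Icc 1 q, ((lev m B1 (q + 1 - s)).card : ℝ) := by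
    have e1 : (B1.card : ℝ) = ∑ s ∈ Icc 1 q, ((lev m B1 s).card : ℝ) := by
      exact_mod_cast card_eq_sum_lev hm hB1
    rw [e1]
    refine sum_nbij' (fun s => q + 1 - s) (fun s => q + 1 - s) ?_ ?_ ?_ ?_ ?_
    · intro s hs; rw [mem_Icc] at hs ⊢; omega
    · intro s hs; rw [mem_Icc] at hs ⊢; omega
    · intro s hs; rw [mem_Icc] at hs; omega
    · intro s hs; rw [mem_Icc] at hs; omega
    · intro s hs
      rw [mem_Icc] at hs
      have : q + 1 - (q + 1 - s) = s := by omega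
      rw [this]
  have hne : (Icc 1 q).Nonempty := ⟨1, by rw [mem_Icc]; omega⟩
  have hsum : ∑ s ∈ Icc 1 q, (((lev m B0 s).card : ℝ) / (lev m B0 1).card +
      ((lev m B1 (q + 1 - s)).card : ℝ) / (lev m B1 1).card) < ∑ s ∈ Icc 1 q, (1 + P) := by
    refine sum_lt_sum_of_nonempty hne fun s hs => ?_
    have hs' := mem_Icc.mp hs
    set a : ℝ := ((lev m B0 s).card : ℝ) / (lev m B0 1).card with ha
    set b : ℝ := ((lev m B1 (q + 1 - s)).card : ℝ) / (lev m B1 1).card with hb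
    have ha1 : a ≤ 1 := by
      rw [ha, div_le_one hS0]
      exact_mod_cast card_le_card (lev_mono hs'.1)
    have hb1 : b ≤ 1 := by
      rw [hb, div_le_one hS1]
      exact_mod_cast card_le_card (lev_mono (by omega))
    have hab : a * b < P := by
      rw [ha, hb, div_mul_div_comm, div_lt_iff₀ (by positivity)]
      exact h s hs
    nlinarith
  rw [sum_add_distrib, ← sum_div, ← sum_div, ← hc0, ← hc1, sum_const, Nat.card_Icc,
    nsmul_eq_mul] at hsum
  have e2 : ((q + 1 - 1 : ℕ) : ℝ) = q := by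
    norm_num
  rw [e2] at hsum
  have e3 : (B0.card : ℝ) / (q * (lev m B0 1).card) + (B1.card : ℝ) / (q * (lev m B1 1).card)
      = ((B0.card : ℝ) / (lev m B0 1).card + (B1.card : ℝ) / (lev m B1 1).card) / q := by
    field_simp
  rw [e3, div_lt_iff₀ hq']
  linarith

/-- The numerical inequality. -/
lemma numeric {a b c d : ℝ} (ha : 0 < a) (hb : 0 < b) (hc : 0 < c) (hd : 0 < d)
    (ha1 : a ≤ 1) (hb1 : b ≤ 1) (hc1 : c ≤ 1) (hd1 : d ≤ 1)
    (h1 : a + b < 1 + a * b * c * d) (h2 : c + d < 1 + a * b * c * d) :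
    a * b * c * d ≤ 7 / 80 := by
  set P := a * b * c * d with hP
  have hP0 : 0 < P := by positivity
  have hab : a * b ≤ ((a + b) / 2) ^ 2 := by nlinarith [sq_nonneg (a - b)]
  have hcd : c * d ≤ ((c + d) / 2) ^ 2 := by nlinarith [sq_nonneg (c - d)]
  have hab2 : a * b < ((1 + P) / 2) ^ 2 := by
    refine lt_of_le_of_lt hab ?_
    gcongr
  have hcd2 : c * d < ((1 + P) / 2) ^ 2 := by
    refine lt_of_le_of_lt hcd ?_
    gcongr
  have hlt : P < ((1 + P) / 2) ^ 2 * ((1 + P) / 2) ^ 2 := by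
    have e : P = (a * b) * (c * d) := by rw [hP]; ring
    calc P = (a * b) * (c * d) := e
      _ < ((1 + P) / 2) ^ 2 * ((1 + P) / 2) ^ 2 :=
        mul_lt_mul'' hab2 hcd2 (by positivity) (by positivity)
  have hP1 : P ≤ 1 := by
    have h3 : a * b ≤ 1 := by nlinarith
    have h4 : c * d ≤ 1 := by nlinarith
    have e : P = (a * b) * (c * d) := by rw [hP]; ring
    rw [e]
    nlinarith [mul_pos ha hb, mul_pos hc hd]
  have hfac : 0 < (P - 1) * (P ^ 3 + 5 * P ^ 2 + 11 * P - 1) := by nlinarith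
  by_contra hcon
  push Not at hcon
  have h5 : 0 < P ^ 3 + 5 * P ^ 2 + 11 * P - 1 := by nlinarith [pow_pos hP0 3, pow_pos hP0 2]
  nlinarith

theorem core (w : ℕ → ℕ) (q : ℕ → ℕ) (n : ℕ) (hw0 : w 0 = 1)
    (hw : ∀ i < n, w (i + 1) = w i * q i) (hq : ∀ i < n, 0 < q i) :
    ∀ B0 B1 B2 B3 : Finset ℕ, B0.Nonempty → B1.Nonempty → B2.Nonempty → B3.Nonempty →
      B0 ⊆ range (w n) → B1 ⊆ range (w n) → B2 ⊆ range (w n) → B3 ⊆ range (w n) →
      ∃ I ⊆ range n, (B0.card * B1.card * (B2.card * B3.card) : ℝ) ≤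
        (7 / 80) ^ I.card * (w n : ℝ) ^ 4 ∧ Cov w n B0 B1 B2 B3 I := by
  induction n with
  | zero =>
    intro B0 B1 B2 B3 n0 n1 n2 n3 h0 h1 h2 h3
    rw [hw0] at h0 h1 h2 h3
    have key : ∀ B : Finset ℕ, B.Nonempty → B ⊆ range 1 → B = {0} := by
      intro B hB hB1
      refine Subset.antisymm ?_ ?_
      · intro b hb
        have := mem_range.mp (hB1 hb)
        rw [mem_singleton]; omega
      · intro b hb
        rw [mem_singleton] at hb
        obtain ⟨c, hc⟩ := hB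
        have := mem_range.mp (hB1 hc)
        have : c = b := by omega
        rwa [← this]
    rw [key B0 n0 h0, key B1 n1 h1, key B2 n2 h2, key B3 n3 h3]
    refine ⟨∅, empty_subset _, ?_, ?_⟩
    · rw [hw0]; norm_num
    · intro x
      refine ⟨0, by simp, 0, by simp, 0, by simp, 0, by simp, fun _ => 0, by simp, ?_⟩
      rw [hw0]
      exact Int.modEq_one
  | succ n ih =>
    have ih' := ih (fun i hi => hw i (by omega)) (fun i hi => hq i (by omega))
    intro B0 B1 B2 B3 n0 n1 n2 n3 h0 h1 h2 h3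
    have hwpos : ∀ i ≤ n + 1, 0 < w i := by
      intro i
      induction i with
      | zero => intro _; rw [hw0]; norm_num
      | succ i ihi =>
        intro hi
        rw [hw i (by omega)]
        exact Nat.mul_pos (ihi (by omega)) (hq i (by omega))
    have hm := hwpos n (by omega)
    have hqn := hq n (by omega)
    have hwn := hw n (by omega)
    set m := w n with hmdef
    set Q := q n with hQ
    have c0 : (0 : ℝ) < B0.card := by exact_mod_cast card_pos.mpr n0
    have c1 : (0 : ℝ) < B1.card := by exact_mod_cast card_pos.mpr n1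
    have c2 : (0 : ℝ) < B2.card := by exact_mod_cast card_pos.mpr n2
    have c3 : (0 : ℝ) < B3.card := by exact_mod_cast card_pos.mpr n3
    have hQR : (0 : ℝ) < Q := by exact_mod_cast hqn
    have hmR : (0 : ℝ) < m := by exact_mod_cast hm
    have s0 : (0 : ℝ) < (lev m B0 1).card := by exact_mod_cast card_pos.mpr (lev_one_nonempty hm n0)
    have s1 : (0 : ℝ) < (lev m B1 1).card := by exact_mod_cast card_pos.mpr (lev_one_nonempty hm n1)
    have s2 : (0 : ℝ) < (lev m B2 1).card := by exact_mod_cast card_pos.mpr (lev_one_nonempty hm n2)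
    have s3 : (0 : ℝ) < (lev m B3 1).card := by exact_mod_cast card_pos.mpr (lev_one_nonempty hm n3)
    have hwR : ((w (n + 1) : ℕ) : ℝ) = m * Q := by rw [hwn]; push_cast; ring
    -- a general step for option A
    have stepA : ∀ C0 C1 C2 C3 : Finset ℕ, C0.Nonempty → C1.Nonempty → C2.Nonempty →
        C3.Nonempty → C0 ⊆ range (w (n + 1)) → C1 ⊆ range (w (n + 1)) →
        (∃ s ∈ Icc 1 Q, (C0.card * C1.card * (C2.card * C3.card) : ℝ) ≤
          Q ^ 4 * (((lev m C0 s).card : ℝ) * (lev m C1 (Q + 1 - s)).card *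
            ((lev m C2 1).card * (lev m C3 1).card))) →
        ∃ I ⊆ range n, (C0.card * C1.card * (C2.card * C3.card) : ℝ) ≤
          (7 / 80) ^ I.card * (w (n + 1) : ℝ) ^ 4 ∧ Cov w (n + 1) C0 C1 C2 C3 I := by
      intro C0 C1 C2 C3 k0 k1 k2 k3 hC0 hC1 ⟨s, hs, hle⟩
      have d0 : (0 : ℝ) < C0.card := by exact_mod_cast card_pos.mpr k0
      have d1 : (0 : ℝ) < C1.card := by exact_mod_cast card_pos.mpr k1
      have d2 : (0 : ℝ) < C2.card := by exact_mod_cast card_pos.mpr k2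
      have d3 : (0 : ℝ) < C3.card := by exact_mod_cast card_pos.mpr k3
      have hpos : (0 : ℝ) < ((lev m C0 s).card : ℝ) * (lev m C1 (Q + 1 - s)).card *
            ((lev m C2 1).card * (lev m C3 1).card) := by
        have h5 : (0 : ℝ) < C0.card * C1.card * (C2.card * C3.card) := by positivity
        have h6 := lt_of_lt_of_le h5 hle
        exact (pos_iff_pos_of_mul_pos h6).mp (by positivity)
      have l0 : (lev m C0 s).Nonempty := by
        rw [← card_pos]
        by_contra hcon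
        have : (lev m C0 s).card = 0 := by omega
        rw [this] at hpos
        simp at hpos
      have l1 : (lev m C1 (Q + 1 - s)).Nonempty := by
        rw [← card_pos]
        by_contra hcon
        have : (lev m C1 (Q + 1 - s)).card = 0 := by omega
        rw [this] at hpos
        simp at hpos
      obtain ⟨I, hI, hcard, hcov⟩ := ih' (lev m C0 s) (lev m C1 (Q + 1 - s)) (lev m C2 1)
        (lev m C3 1) l0 l1 (lev_one_nonempty hm k2) (lev_one_nonempty hm k3) lev_subset lev_subset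
        lev_subset lev_subset
      refine ⟨I, hI, ?_, optA (q := Q) hwn hm hqn hs hC0 hC1 hcov⟩
      rw [hwR]
      calc (C0.card * C1.card * (C2.card * C3.card) : ℝ) ≤ Q ^ 4 *
            (((lev m C0 s).card : ℝ) * (lev m C1 (Q + 1 - s)).card *
            ((lev m C2 1).card * (lev m C3 1).card)) := hle
        _ ≤ Q ^ 4 * ((7 / 80) ^ I.card * (m : ℝ) ^ 4) := by gcongr
        _ = (7 / 80) ^ I.card * ((m : ℝ) * Q) ^ 4 := by ring
    by_cases hA : ∃ s ∈ Icc 1 Q, (B0.card * B1.card * (B2.card * B3.card) : ℝ) ≤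
          Q ^ 4 * (((lev m B0 s).card : ℝ) * (lev m B1 (Q + 1 - s)).card *
            ((lev m B2 1).card * (lev m B3 1).card))
    · obtain ⟨I, hI, hc, hcov⟩ := stepA B0 B1 B2 B3 n0 n1 n2 n3 h0 h1 hA
      exact ⟨I, hI.trans (range_subset_range.mpr (by omega)), hc, hcov⟩
    by_cases hA' : ∃ s ∈ Icc 1 Q, (B2.card * B3.card * (B0.card * B1.card) : ℝ) ≤
          Q ^ 4 * (((lev m B2 s).card : ℝ) * (lev m B3 (Q + 1 - s)).card *
            ((lev m B0 1).card * (lev m B1 1).card))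
    · obtain ⟨I, hI, hc, hcov⟩ := stepA B2 B3 B0 B1 n2 n3 n0 n1 h2 h3 hA'
      refine ⟨I, hI.trans (range_subset_range.mpr (by omega)), ?_, cov_symm hcov⟩
      rw [mul_comm (B0.card * B1.card : ℝ)]
      exact hc
    push Not at hA hA'
    set P : ℝ := (B0.card * B1.card * (B2.card * B3.card) : ℝ) / (Q ^ 4 *
      (((lev m B0 1).card : ℝ) * (lev m B1 1).card * ((lev m B2 1).card * (lev m B3 1).card)))
      with hP
    have p1 := pair_ineq (P := P) hm hqn n0 n1 (hwn ▸ h0) (hwn ▸ h1) (by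
      intro s hs
      have h5 := hA s hs
      have e : P * (((lev m B0 1).card : ℝ) * (lev m B1 1).card) =
        (B0.card * B1.card * (B2.card * B3.card) : ℝ) /
          (Q ^ 4 * ((lev m B2 1).card * (lev m B3 1).card)) := by
        rw [hP]; field_simp
      rw [e, lt_div_iff₀ (by positivity)]
      refine lt_of_eq_of_lt ?_ h5
      ring)
    have p2 := pair_ineq (P := P) hm hqn n2 n3 (hwn ▸ h2) (hwn ▸ h3) (by
      intro s hs
      have h5 := hA' s hs
      have e : P * (((lev m B2 1).card : ℝ) * (lev m B3 1).card) =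
        (B2.card * B3.card * (B0.card * B1.card) : ℝ) /
          (Q ^ 4 * ((lev m B0 1).card * (lev m B1 1).card)) := by
        rw [hP]; field_simp
      rw [e, lt_div_iff₀ (by positivity)]
      refine lt_of_eq_of_lt ?_ h5
      ring)
    have hle1 : ∀ B : Finset ℕ, B.Nonempty → B ⊆ range (m * Q) →
        (B.card : ℝ) / (Q * (lev m B 1).card) ≤ 1 := by
      intro B hBn hB
      have hpos : (0 : ℝ) < (lev m B 1).card := by
        exact_mod_cast card_pos.mpr (lev_one_nonempty hm hBn)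
      rw [div_le_one (by positivity)]
      have e1 : (B.card : ℝ) = ∑ s ∈ Icc 1 Q, ((lev m B s).card : ℝ) := by
        exact_mod_cast card_eq_sum_lev hm hB
      rw [e1]
      calc ∑ s ∈ Icc 1 Q, ((lev m B s).card : ℝ) ≤ ∑ s ∈ Icc 1 Q, ((lev m B 1).card : ℝ) := by
            refine sum_le_sum fun s hs => ?_
            exact_mod_cast card_le_card (lev_mono (mem_Icc.mp hs).1)
        _ = Q * (lev m B 1).card := by
            rw [sum_const, Nat.card_Icc, nsmul_eq_mul]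
            norm_num
    have hPe : P = (B0.card : ℝ) / (Q * (lev m B0 1).card) * ((B1.card : ℝ) / (Q * (lev m B1 1).card))
        * ((B2.card : ℝ) / (Q * (lev m B2 1).card)) * ((B3.card : ℝ) / (Q * (lev m B3 1).card)) := by
      rw [hP]; field_simp
    have hfin : P ≤ 7 / 80 := by
      rw [hPe] at p1 p2 ⊢
      exact numeric (by positivity) (by positivity) (by positivity) (by positivity)
        (hle1 B0 n0 (hwn ▸ h0)) (hle1 B1 n1 (hwn ▸ h1)) (hle1 B2 n2 (hwn ▸ h2))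
        (hle1 B3 n3 (hwn ▸ h3)) p1 p2
    obtain ⟨I, hI, hcard, hcov⟩ := ih' (lev m B0 1) (lev m B1 1) (lev m B2 1)
        (lev m B3 1) (lev_one_nonempty hm n0) (lev_one_nonempty hm n1) (lev_one_nonempty hm n2)
        (lev_one_nonempty hm n3) lev_subset lev_subset lev_subset lev_subset
    refine ⟨insert n I, ?_, ?_, optB (q := Q) hwn hm hqn hI hcov⟩
    · intro i hi
      rw [mem_insert] at hi
      rcases hi with rfl | hi
      · exact mem_range.mpr (by omega)
      · have := mem_range.mp (hI hi)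
        exact mem_range.mpr (by omega)
    · have hnI : n ∉ I := fun h' => by
        have := mem_range.mp (hI h')
        omega
      rw [card_insert_of_notMem hnI, hwR, pow_succ]
      have hX : (0 : ℝ) ≤ Q ^ 4 * (((lev m B0 1).card : ℝ) * (lev m B1 1).card *
          ((lev m B2 1).card * (lev m B3 1).card)) := by positivity
      have e : (B0.card * B1.card * (B2.card * B3.card) : ℝ) = P * (Q ^ 4 *
        (((lev m B0 1).card : ℝ) * (lev m B1 1).card *
          ((lev m B2 1).card * (lev m B3 1).card))) := by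
        rw [hP]; field_simp
      rw [e]
      calc P * (Q ^ 4 * (((lev m B0 1).card : ℝ) * (lev m B1 1).card *
          ((lev m B2 1).card * (lev m B3 1).card)))
          ≤ 7 / 80 * (Q ^ 4 * ((7 / 80) ^ I.card * (m : ℝ) ^ 4)) :=
            mul_le_mul hfin (mul_le_mul_of_nonneg_left hcard (pow_nonneg hQR.le 4)) hX
              (by norm_num)
        _ = (7 / 80) ^ I.card * (7 / 80) * ((m : ℝ) * Q) ^ 4 := by ring

end Pool.Agent.H91.DG
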