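import Pool.Agent.H91.DG.Core

/-!
Transfer of the digit covering theorem to `ZMod N`.
-/

open Finset

namespace Pool.Agent.H91.DG

lemma w_pos {w : ℕ → ℕ} {n : ℕ} (hdiv : ∀ i < n, w i ∣ w (i + 1)) (hn : 0 < w n) :
    ∀ i ≤ n, 0 < w i := by
  intro i hi
  obtain ⟨k, rfl⟩ := Nat.exists_eq_add_of_le hi
  clear hi
  induction k with
  | zero => simpa using hn
  | succ k ih =>
    refine ih (fun j hj => hdiv j (by omega)) ?_
    have h1 := hdiv (i + k) (by omega)
    have h2 : i + k + 1 = i + (k + 1) := by ring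
    rw [h2] at h1
    exact Nat.pos_of_dvd_of_pos h1 hn

/-- The digits add up to less than `w n`. -/
lemma digits_lt {w : ℕ → ℕ} {n : ℕ} (h0 : w 0 = 1) (hdiv : ∀ i < n, w i ∣ w (i + 1))
    (hn : 0 < w n) {I : Finset ℕ} (hI : I ⊆ range n) {t : ℕ → ℕ}
    (ht : ∀ i ∈ I, t i * w i < w (i + 1)) : ∑ i ∈ I, (t i : ℤ) * w i ≤ (w n : ℤ) - 1 := by
  have hpos := w_pos hdiv hn
  have h1 : ∀ i ∈ I, (t i : ℤ) * w i ≤ (w (i + 1) : ℤ) - w i := by
    intro i hi
    have hin := mem_range.mp (hI hi)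
    obtain ⟨q, hq⟩ := hdiv i hin
    have h2 := ht i hi
    rw [hq, mul_comm] at h2
    have h3 : t i < q := lt_of_mul_lt_mul_left h2 (Nat.zero_le _)
    rw [hq]
    push_cast
    have h4 : (t i : ℤ) + 1 ≤ q := by exact_mod_cast h3
    have h5 : (0 : ℤ) ≤ w i := by positivity
    nlinarith
  have h2 : ∀ i ∈ range n, i ∉ I → (0 : ℤ) ≤ (w (i + 1) : ℤ) - w i := by
    intro i hi _
    have hin := mem_range.mp hi
    have := Nat.le_of_dvd (hpos (i + 1) (by omega)) (hdiv i hin)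
    have h3 : (w i : ℤ) ≤ w (i + 1) := by exact_mod_cast this
    linarith
  calc ∑ i ∈ I, (t i : ℤ) * w i ≤ ∑ i ∈ I, ((w (i + 1) : ℤ) - w i) := sum_le_sum h1
    _ ≤ ∑ i ∈ range n, ((w (i + 1) : ℤ) - w i) := sum_le_sum_of_subset_of_nonneg hI h2
    _ = (w n : ℤ) - 1 := by
      rw [sum_range_sub (fun i => (w i : ℤ)) n, h0]
      norm_num

theorem general (N : ℕ) (hN : 1 ≤ N) (w : ℕ → ℕ) (n : ℕ) (h0 : w 0 = 1)
    (hdiv : ∀ i < n, w i ∣ w (i + 1)) (hn : w n = N ∨ 5 * N ≤ w n)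
    (A₁ A₂ A₃ A₄ : Finset (ZMod N)) (n1 : A₁.Nonempty) (n2 : A₂.Nonempty) (n3 : A₃.Nonempty)
    (n4 : A₄.Nonempty) :
    ∃ I ⊆ range n,
      (A₁.card * A₂.card * A₃.card * A₄.card : ℝ) ≤ (7 / 80) ^ I.card * (w n : ℝ) ^ 4 ∧
      ∀ x : ZMod N, ∃ a₁ ∈ A₁, ∃ a₂ ∈ A₂, ∃ a₃ ∈ A₃, ∃ a₄ ∈ A₄, ∃ t : ℕ → ℕ,
        (∀ i ∈ I, t i * w i < w (i + 1)) ∧
        x = a₁ + a₂ - a₃ - a₄ + ∑ i ∈ I, (t i : ZMod N) * (w i : ZMod N) := by
  classical
  have : NeZero N := ⟨by omega⟩
  have hwn : 0 < w n := by rcases hn with h | h <;> omega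
  have hle : N ≤ w n := by rcases hn with h | h <;> omega
  have hpos := w_pos hdiv hwn
  -- the sets of naturals
  have himg : ∀ A : Finset (ZMod N), (A.image fun a => a.val) ⊆ range (w n) := by
    intro A b hb
    rw [mem_image] at hb
    obtain ⟨a, _, rfl⟩ := hb
    exact mem_range.mpr (lt_of_lt_of_le (ZMod.val_lt a) hle)
  have himg' : ∀ A : Finset (ZMod N), (A.image fun a => (-a).val) ⊆ range (w n) := by
    intro A b hb
    rw [mem_image] at hb
    obtain ⟨a, _, rfl⟩ := hb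
    exact mem_range.mpr (lt_of_lt_of_le (ZMod.val_lt _) hle)
  have hc : ∀ A : Finset (ZMod N), (A.image fun a => a.val).card = A.card := by
    intro A
    exact card_image_of_injective _ (ZMod.val_injective N)
  have hc' : ∀ A : Finset (ZMod N), (A.image fun a => (-a).val).card = A.card := by
    intro A
    refine card_image_of_injective _ ?_
    intro a b hab
    exact neg_injective (ZMod.val_injective N hab)
  obtain ⟨I, hI, hcard, hcov⟩ := core w (fun i => w (i + 1) / w i) n h0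
    (fun i hi => (Nat.mul_div_cancel' (hdiv i hi)).symm)
    (fun i hi => Nat.div_pos (Nat.le_of_dvd (hpos (i + 1) (by omega)) (hdiv i hi))
      (hpos i (by omega)))
    (A₁.image fun a => a.val) (A₂.image fun a => a.val) (A₃.image fun a => (-a).val)
    (A₄.image fun a => (-a).val) (n1.image _) (n2.image _) (n3.image _) (n4.image _)
    (himg _) (himg _) (himg' _) (himg' _)
  rw [hc, hc, hc', hc'] at hcard
  refine ⟨I, hI, ?_, ?_⟩
  · refine le_trans (le_of_eq ?_) hcard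
    ring
  intro x
  obtain ⟨b0, hb0, b1, hb1, b2, hb2, b3, hb3, t, ht, hx⟩ := hcov ((x.val : ℤ) + 4 * N)
  rw [mem_image] at hb0 hb1 hb2 hb3
  obtain ⟨a1, ha1, rfl⟩ := hb0
  obtain ⟨a2, ha2, rfl⟩ := hb1
  obtain ⟨a3, ha3, rfl⟩ := hb2
  obtain ⟨a4, ha4, rfl⟩ := hb3
  refine ⟨a1, ha1, a2, ha2, a3, ha3, a4, ha4, t, ht, ?_⟩
  have hcast : (((x.val : ℤ) + 4 * N : ℤ) : ZMod N) = (((a1.val : ℤ) + a2.val + (-a3).val
      + (-a4).val + ∑ i ∈ I, (t i : ℤ) * w i : ℤ) : ZMod N) := by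
    rcases hn with h | h
    · rw [h] at hx
      exact (ZMod.intCast_eq_intCast_iff _ _ _).mpr hx
    · have hd := digits_lt h0 hdiv hwn hI ht
      have hd0 : 0 ≤ ∑ i ∈ I, (t i : ℤ) * w i := sum_nonneg fun i _ => by positivity
      have v1 := ZMod.val_lt a1
      have v2 := ZMod.val_lt a2
      have v3 := ZMod.val_lt (-a3)
      have v4 := ZMod.val_lt (-a4)
      have vx := ZMod.val_lt x
      have heq : (x.val : ℤ) + 4 * N = (a1.val : ℤ) + a2.val + (-a3).val
          + (-a4).val + ∑ i ∈ I, (t i : ℤ) * w i := by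
        have h1 := Int.modEq_iff_dvd.mp hx
        have h2 := Int.eq_zero_of_abs_lt_dvd h1 (by
          rw [abs_lt]
          constructor <;> push_cast <;> omega)
        linarith
      rw [heq]
  push_cast at hcast
  simp only [ZMod.natCast_val, ZMod.cast_id', id, CharP.cast_eq_zero, mul_zero, add_zero]
    at hcast
  rw [hcast]
  ring

/-- The binary case. -/
theorem binary (N : ℕ) (hN : 1 ≤ N) (A : Finset (ZMod N)) (hA : A.Nonempty) :
    ∃ I : Finset ℕ, (∀ i ∈ I, 2 ^ i < 5 * N) ∧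
      (I.card : ℝ) ≤ 1.65 * Real.log (N / A.card) + 4 ∧
      ∀ x : ZMod N, ∃ a₁ ∈ A, ∃ a₂ ∈ A, ∃ a₃ ∈ A, ∃ a₄ ∈ A, ∃ J ⊆ I,
        x = a₁ + a₂ - a₃ - a₄ + ∑ i ∈ J, (2 : ZMod N) ^ i := by
  classical
  have : NeZero N := ⟨by omega⟩
  obtain ⟨I, hI, hcard, hcov⟩ := general N hN (fun i => 2 ^ i) (Nat.clog 2 (5 * N)) (by norm_num)
    (fun i _ => pow_dvd_pow 2 (by omega)) (Or.inr (Nat.le_pow_clog (by norm_num) _))
    A A A A hA hA hA hA
  have hlt : 2 ^ (Nat.clog 2 (5 * N) - 1) < 5 * N :=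
    Nat.pow_pred_clog_lt_self (by norm_num) (by omega)
  have hclog : 0 < Nat.clog 2 (5 * N) := Nat.clog_pos (by norm_num) (by omega)
  refine ⟨I, ?_, ?_, ?_⟩
  · intro i hi
    have h1 := mem_range.mp (hI hi)
    refine lt_of_le_of_lt ?_ hlt
    exact Nat.pow_le_pow_right (by norm_num) (by omega)
  · have hcA : (0 : ℝ) < A.card := by exact_mod_cast card_pos.mpr hA
    have hNR : (0 : ℝ) < N := by exact_mod_cast hN
    have h2n : ((2 ^ Nat.clog 2 (5 * N) : ℕ) : ℝ) ≤ 10 * N := by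
      have h1 : 2 ^ Nat.clog 2 (5 * N) = 2 * 2 ^ (Nat.clog 2 (5 * N) - 1) := by
        rw [← pow_succ']
        congr 1
        omega
      have h2 : 2 ^ Nat.clog 2 (5 * N) ≤ 10 * N := by omega
      exact_mod_cast h2
    have h3 : (A.card : ℝ) ^ 4 ≤ (7 / 80) ^ I.card * (10 * N) ^ 4 := by
      calc (A.card : ℝ) ^ 4 = A.card * A.card * A.card * A.card := by ring
        _ ≤ (7 / 80) ^ I.card * ((2 ^ Nat.clog 2 (5 * N) : ℕ) : ℝ) ^ 4 := hcard
        _ ≤ (7 / 80) ^ I.card * (10 * N) ^ 4 := by gcongr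
    have h4 : (80 / 7 : ℝ) ^ I.card ≤ (10 * (N / A.card)) ^ 4 := by
      have h5 : (7 / 80 : ℝ) ^ I.card * (80 / 7) ^ I.card = 1 := by
        rw [← mul_pow]; norm_num
      have h6 : (A.card : ℝ) ^ 4 * (80 / 7) ^ I.card ≤ (10 * N) ^ 4 := by
        calc (A.card : ℝ) ^ 4 * (80 / 7) ^ I.card ≤
              (7 / 80) ^ I.card * (10 * N) ^ 4 * (80 / 7) ^ I.card := by gcongr
          _ = (7 / 80 : ℝ) ^ I.card * (80 / 7) ^ I.card * (10 * N) ^ 4 := by ring
          _ = (10 * N) ^ 4 := by rw [h5, one_mul]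
      have h7 : (10 * ((N : ℝ) / A.card)) ^ 4 = (10 * N) ^ 4 / (A.card : ℝ) ^ 4 := by
        field_simp
      rw [h7, le_div_iff₀ (by positivity)]
      linarith
    have h8 := Real.log_le_log (by positivity) h4
    rw [Real.log_pow, Real.log_pow, Real.log_mul (by norm_num) (by positivity)] at h8
    have hl10 : Real.log 10 ≤ Real.log (80 / 7) := Real.log_le_log (by norm_num) (by norm_num)
    have hl : (80 / 33 : ℝ) ≤ Real.log (80 / 7) := by
      rw [Real.le_log_iff_exp_le (by norm_num)]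
      have e1 : Real.exp (80 / 33) ^ 33 ≤ (80 / 7 : ℝ) ^ 33 := by
        rw [← Real.exp_nat_mul]
        have e2 : ((33 : ℕ) : ℝ) * (80 / 33) = (80 : ℕ) * 1 := by norm_num
        rw [e2, Real.exp_nat_mul]
        calc Real.exp 1 ^ 80 ≤ (2.7182818286 : ℝ) ^ 80 := by
              gcongr
              exact Real.exp_one_lt_d9.le
          _ ≤ (80 / 7 : ℝ) ^ 33 := by norm_num
      exact le_of_pow_le_pow_left₀ (by norm_num) (by norm_num) e1
    have hL : 0 ≤ Real.log ((N : ℝ) / A.card) := by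
      refine Real.log_nonneg ?_
      rw [one_le_div hcA]
      have := card_le_univ A
      rw [ZMod.card] at this
      exact_mod_cast this
    push_cast at h8
    have hpos : 0 < Real.log (80 / 7) := by linarith
    -- `|I| log (80/7) ≤ 4 log 10 + 4 L`
    have h9 : (I.card : ℝ) * Real.log (80 / 7) ≤
        (1.65 * Real.log (N / A.card) + 4) * Real.log (80 / 7) := by
      nlinarith
    exact le_of_mul_le_mul_right h9 hpos
  · intro x
    obtain ⟨a1, h1, a2, h2, a3, h3, a4, h4, t, ht, hx⟩ := hcov x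
    refine ⟨a1, h1, a2, h2, a3, h3, a4, h4, I.filter (fun i => t i = 1), filter_subset _ _, ?_⟩
    rw [hx, sum_filter]
    congr 1
    refine sum_congr rfl fun i hi => ?_
    have h5 := ht i hi
    simp only [pow_succ] at h5
    have h6 : t i < 2 := by
      rw [mul_comm] at h5
      exact lt_of_mul_lt_mul_left h5 (Nat.zero_le _)
    split_ifs with h7
    · rw [h7]; push_cast; ring
    · have : t i = 0 := by omega
      rw [this]; push_cast; ring

end Pool.Agent.H91.DG
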